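import Pool.Agent.H42.NU.Exist
import Pool.Agent.H42.NU.Dih
import Pool.Agent.H73.HVN.Exch

/-!
# Project AA: crossing numbers

`cjF`: the action of `W` on the functions on `W` by conjugation; `exists_cross`: the homomorphism of the Artin group to
the semidirect product which maps the generator `s` to the pair of the indicator function of `s` and of `s`;
`cross_word`: its values on positive words.
-/

set_option autoImplicit false
set_option linter.unusedSectionVars false

open Finset

namespace Pool.Agent.H85.AA

open H42.NU Pool.Agent.H73.HVN CoxeterSystem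

section

variable {W : Type} [Group W]

/-- conjugation of functions -/
def cjE (w : W) : (W → ℤ) ≃+ (W → ℤ) where
  toFun f r := f (w⁻¹ * r * w)
  invFun f r := f (w * r * w⁻¹)
  left_inv f := by
    funext r
    show f (w⁻¹ * (w * r * w⁻¹) * w) = f r
    congr 1
    group
  right_inv f := by
    funext r
    show f (w * (w⁻¹ * r * w) * w⁻¹) = f r
    congr 1
    group
  map_add' _ _ := rfl

/-- the action of `W` on the functions on `W` by conjugation -/
def cjF : W →* MulAut (Multiplicative (W → ℤ)) where
  toFun w := AddEquiv.toMultiplicative (cjE w)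
  map_one' := by
    ext f r
    show (Multiplicative.toAdd f) (1⁻¹ * r * 1) = (Multiplicative.toAdd f) r
    rw [inv_one, one_mul, mul_one]
  map_mul' u w := by
    ext f r
    show (Multiplicative.toAdd f) ((u * w)⁻¹ * r * (u * w)) =
      (Multiplicative.toAdd f) (w⁻¹ * (u⁻¹ * r * u) * w)
    congr 1
    group

/-- the semidirect product -/
abbrev CW (W : Type) [Group W] : Type := Multiplicative (W → ℤ) ⋊[cjF (W := W)] W

open Classical in
/-- the indicator function of `t` -/
noncomputable def ind (t : W) : W → ℤ := fun r => if r = t then 1 else 0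

theorem cjE_ind (w t : W) : cjE w (ind t) = ind (w * t * w⁻¹) := by
  funext r
  show ind t (w⁻¹ * r * w) = ind (w * t * w⁻¹) r
  unfold ind
  have h : w⁻¹ * r * w = t ↔ r = w * t * w⁻¹ := by
    constructor
    · rintro rfl
      group
    · rintro rfl
      group
  by_cases h1 : r = w * t * w⁻¹
  · rw [if_pos h1, if_pos (h.2 h1)]
  · rw [if_neg h1, if_neg fun h2 => h1 (h.1 h2)]

variable {S : Type} (σ : S → W)

/-- the image of a generator -/
noncomputable def cgen (s : S) : CW W := ⟨Multiplicative.ofAdd (ind (σ s)), σ s⟩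

theorem lt_succ (s s' : S) (n : ℕ) : lt s s' (n + 1) = lt s' s n := by
  unfold lt
  rcases Nat.mod_two_eq_zero_or_one n with h | h
  · rw [if_neg (by omega), if_pos h]
  · rw [if_pos (by omega), if_neg (by omega)]

theorem conj_pr (hσ : ∀ s, σ s * σ s = 1) : ∀ (n : ℕ) (s s' : S),
    pr σ s s' n * σ (lt s s' n) * (pr σ s s' n)⁻¹ = (σ s * σ s') ^ n * σ s := by
  intro n
  induction n with
  | zero =>
    intro s s'
    show 1 * σ (lt s s' 0) * 1⁻¹ = (σ s * σ s') ^ 0 * σ s
    rw [pow_zero, inv_one, mul_one]
    rfl
  | succ n ih =>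
    intro s s'
    have h1 := ih s' s
    have hinv : (σ s)⁻¹ = σ s := inv_eq_of_mul_eq_one_left (hσ s)
    rw [pr_succ', lt_succ, mul_inv_rev, hinv]
    calc σ s * pr σ s' s n * σ (lt s' s n) * ((pr σ s' s n)⁻¹ * σ s)
        = σ s * (pr σ s' s n * σ (lt s' s n) * (pr σ s' s n)⁻¹) * σ s := by group
      _ = σ s * ((σ s' * σ s) ^ n * σ s') * σ s := by rw [h1]
      _ = (σ s * (σ s' * σ s) ^ n) * (σ s' * σ s) := by group
      _ = ((σ s * σ s') ^ n * σ s) * (σ s' * σ s) := by
        have h2 : ∀ k : ℕ, σ s * (σ s' * σ s) ^ k = (σ s * σ s') ^ k * σ s := by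
          intro k
          induction k with
          | zero => simp
          | succ k ihk =>
            rw [pow_succ, ← mul_assoc, ihk, pow_succ]
            group
        rw [h2]
      _ = (σ s * σ s') ^ (n + 1) * σ s := by
        rw [pow_succ]
        group

theorem pr_cgen (hσ : ∀ s, σ s * σ s = 1) (s s' : S) (n : ℕ) :
    pr (cgen σ) s s' n =
      (⟨Multiplicative.ofAdd (∑ i ∈ range n, ind ((σ s * σ s') ^ i * σ s)), pr σ s s' n⟩ :
        CW W) := by
  induction n with
  | zero =>
    apply SemidirectProduct.ext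
    · rfl
    · rfl
  | succ n ih =>
    have h1 : pr (cgen σ) s s' (n + 1) = pr (cgen σ) s s' n * cgen σ (lt s s' n) := rfl
    rw [h1, ih]
    apply SemidirectProduct.ext
    · show Multiplicative.ofAdd (∑ i ∈ range n, ind ((σ s * σ s') ^ i * σ s)) *
        cjF (pr σ s s' n) (Multiplicative.ofAdd (ind (σ (lt s s' n)))) =
        Multiplicative.ofAdd (∑ i ∈ range (n + 1), ind ((σ s * σ s') ^ i * σ s))
      have h2 : cjF (pr σ s s' n) (Multiplicative.ofAdd (ind (σ (lt s s' n)))) =
          Multiplicative.ofAdd (ind ((σ s * σ s') ^ n * σ s)) := by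
        show Multiplicative.ofAdd (cjE (pr σ s s' n) (ind (σ (lt s s' n)))) = _
        rw [cjE_ind, conj_pr σ hσ]
      rw [h2, sum_range_succ, ofAdd_add]
    · rfl

/-- the braid relations -/
theorem artin_cgen {M : CoxeterMatrix S} (cs : CoxeterSystem M W) :
    Artin M (cgen cs.simple) := by
  intro s s' hss
  rw [pr_cgen cs.simple cs.simple_mul_simple_self, pr_cgen cs.simple cs.simple_mul_simple_self]
  apply SemidirectProduct.ext
  · show Multiplicative.ofAdd (∑ i ∈ range (M s s'), ind ((cs.simple s * cs.simple s') ^ i *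
      cs.simple s)) = Multiplicative.ofAdd (∑ i ∈ range (M s s'),
        ind ((cs.simple s' * cs.simple s) ^ i * cs.simple s'))
    congr 1
    rw [← sum_range_reflect]
    refine sum_congr rfl fun i hi => ?_
    rw [mem_range] at hi
    congr 1
    have hm : (cs.simple s * cs.simple s') ^ M s s' = 1 := cs.simple_mul_simple_pow s s'
    have h1 : cs.simple s' * cs.simple s = (cs.simple s * cs.simple s')⁻¹ := by
      rw [mul_inv_rev, cs.inv_simple, cs.inv_simple]
    have h2 : (cs.simple s * cs.simple s') ^ (i + 1) *
        (cs.simple s * cs.simple s') ^ (M s s' - 1 - i) = 1 := by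
      rw [← pow_add, show i + 1 + (M s s' - 1 - i) = M s s' by omega, hm]
    have h3 : (cs.simple s * cs.simple s') ^ (M s s' - 1 - i) =
        ((cs.simple s * cs.simple s') ^ (i + 1))⁻¹ := (inv_eq_of_mul_eq_one_right h2).symm
    rw [h3, h1, inv_pow, pow_succ', mul_inv_rev, mul_assoc, mul_inv_rev, cs.inv_simple,
      cs.inv_simple, mul_assoc, cs.simple_mul_simple_self, mul_one]
  · exact dih_top cs s s'

end

section

variable {S : Type} {W : Type} [Group W] {M : CoxeterMatrix S} (cs : CoxeterSystem M W)

/-- **The crossing homomorphism.** -/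
theorem exists_cross : ∃ Ψ : BG M →* CW W, ∀ s, Ψ (bgen M s) = cgen cs.simple s :=
  bg_hom (cgen cs.simple) (artin_cgen cs)

variable {cs}

open Classical in
theorem cross_word {Ψ : BG M →* CW W} (hΨ : ∀ s, Ψ (bgen M s) = cgen cs.simple s)
    (ω : List S) : Ψ (ω.map (bgen M)).prod =
      (⟨Multiplicative.ofAdd fun r => ((cs.leftInvSeq ω).count r : ℤ), cs.wordProd ω⟩ : CW W) := by
  induction ω with
  | nil =>
    rw [List.map_nil, List.prod_nil, map_one]
    apply SemidirectProduct.ext
    · rfl
    · rfl
  | cons i ω ih =>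
    rw [List.map_cons, List.prod_cons, map_mul, hΨ, ih]
    apply SemidirectProduct.ext
    · show Multiplicative.ofAdd (ind (cs.simple i)) * cjF (cs.simple i)
        (Multiplicative.ofAdd fun r => ((cs.leftInvSeq ω).count r : ℤ)) =
        Multiplicative.ofAdd fun r => ((cs.leftInvSeq (i :: ω)).count r : ℤ)
      show Multiplicative.ofAdd (ind (cs.simple i) + cjE (cs.simple i)
        fun r => ((cs.leftInvSeq ω).count r : ℤ)) = _
      congr 1
      funext r
      show ind (cs.simple i) r + ((cs.leftInvSeq ω).count ((cs.simple i)⁻¹ * r * cs.simple i) : ℤ) =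
        ((cs.simple i :: List.map (MulAut.conj (cs.simple i)) (cs.leftInvSeq ω)).count r : ℤ)
      rw [List.count_cons]
      have h1 : r = MulAut.conj (cs.simple i) ((cs.simple i)⁻¹ * r * cs.simple i) := by
        rw [MulAut.conj_apply]
        group
      have h2 : (List.map (MulAut.conj (cs.simple i)) (cs.leftInvSeq ω)).count r =
          (cs.leftInvSeq ω).count ((cs.simple i)⁻¹ * r * cs.simple i) := by
        conv_lhs => rw [h1]
        exact List.count_map_of_injective _ _ (MulAut.conj (cs.simple i)).injective _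
      rw [h2]
      unfold ind
      by_cases h3 : r = cs.simple i
      · rw [if_pos h3, h3]
        simp [add_comm]
      · rw [if_neg h3, if_neg]
        · simp
        · simpa using fun h => h3 h.symm
    · rfl

end

end Pool.Agent.H85.AA
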