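import Pool.Agent.H78.RC.Root

/-!
# Project AA: reflections with full support

The highest root of an irreducible finite parabolic subgroup `W_X` has full support, so its reflection is in no
parabolic subgroup `W_Y`, `Y` not containing `X`.
-/

set_option autoImplicit false

open Finset

namespace Pool.Agent.H85.AA

open Pool.Agent.H4.FC Pool.Agent.H78.RC

variable {S : Type} [Fintype S] [DecidableEq S]

theorem exists_full (M : CoxeterMatrix S) {X : Finset S} (hX : Sph M X) (hc : Con (diag M) X) :
    ∃ r ∈ posR M X, ∀ i ∈ X, r i ≠ 0 := by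
  have hLR : LR (kR M) (Sph M) (posR M) := LR_posR M (Sph M) fun _ h => h
  obtain ⟨s₀, hs₀⟩ := hc.1
  have hne : (posR M X).Nonempty := ⟨_, hLR.single X hX s₀ hs₀⟩
  obtain ⟨r, hr, hmax⟩ := exists_max_image (posR M X) (fun r => ht r) hne
  refine ⟨r, hr, ?_⟩
  have h0 := hLR.nonneg X hX r hr
  have hbf : ∀ t ∈ X, 0 ≤ bf (kR M) r (Pi.single t 1) := by
    intro t ht
    by_cases hrt : r = Pi.single t 1
    · rw [hrt, bf_single, kR_self]
      norm_num
    · have h1 := hmax _ (hLR.refl X hX t ht r hr hrt)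
      have h2 : Pool.Agent.H78.RC.ht (r - bf (kR M) r (Pi.single t 1) • (Pi.single t 1 : S → ℝ)) =
          Pool.Agent.H78.RC.ht r - bf (kR M) r (Pi.single t 1) := by
        unfold Pool.Agent.H78.RC.ht
        simp only [Pi.sub_apply, Pi.smul_apply, smul_eq_mul, sum_sub_distrib, ← mul_sum,
          Finset.sum_pi_single', mem_univ, if_true, mul_one]
      have h1' : Pool.Agent.H78.RC.ht
          (r - bf (kR M) r (Pi.single t 1) • (Pi.single t 1 : S → ℝ)) ≤
          Pool.Agent.H78.RC.ht r := h1
      rw [h2] at h1'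
      linarith
  have hA := hc.2 (X.filter fun i => r i ≠ 0) (filter_subset _ _) (by
    by_contra hcon
    rw [not_nonempty_iff_eq_empty] at hcon
    have hr0 : r = 0 := by
      funext i
      by_cases hi : i ∈ X
      · by_contra hne
        have : i ∈ X.filter fun i => r i ≠ 0 := mem_filter.2 ⟨hi, hne⟩
        rw [hcon] at this
        exact absurd this (notMem_empty i)
      · exact hLR.supp X hX r hr i hi
    have h1 := hLR.norm X hX r hr
    rw [hr0] at h1
    unfold bf at h1
    simp at h1) (by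
    intro a ha b hb hadj
    obtain ⟨haX, ha0⟩ := mem_filter.1 ha
    obtain ⟨hbX, hb0⟩ := mem_sdiff.1 hb
    have hb1 : r b = 0 := by
      by_contra hne
      exact hb0 (mem_filter.2 ⟨hbX, hne⟩)
    have h1 := hbf b hbX
    rw [bf_comm (kR_symm M), bf_single_left] at h1
    have h2 : ∀ u ∈ (univ : Finset S), kR M b u * r u ≤ 0 := by
      intro u _
      by_cases hu : u = b
      · rw [hu, hb1, mul_zero]
      · exact mul_nonpos_of_nonpos_of_nonneg (kR_nonpos M fun h => hu h.symm) (h0 u)
    have h3 : ∑ u, kR M b u * r u = 0 := le_antisymm (sum_nonpos h2) h1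
    have h4 := (sum_eq_zero_iff_of_nonpos h2).1 h3 a (mem_univ a)
    rcases mul_eq_zero.1 h4 with h5 | h5
    · have hab : b ≠ a := fun h => hadj.1 h.symm
      have h6 := (kR_zero M hab).1 h5
      rw [M.symmetric] at h6
      exact hadj.2 h6
    · exact ha0 h5)
  intro i hi
  rw [← hA] at hi
  exact (mem_filter.1 hi).2

/-- **Reflections with full support.** -/
theorem exists_full_rf (M : CoxeterMatrix S) {X : Finset S} (hX : Sph M X)
    (hc : Con (diag M) X) : ∃ t, IsRf M X t ∧ ∀ Y, Sph M Y → (IsRf M Y t ↔ X ⊆ Y) := by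
  obtain ⟨r, hr, hfull⟩ := exists_full M hX hc
  obtain ⟨t, ht, htr⟩ := exists_rf M hX hr
  refine ⟨t, ht, fun Y hY => ⟨fun h => ?_, fun h => ht.mono h⟩⟩
  have h1 := (isRf_iff M hX hY ht hr htr).1 h
  intro i hi
  by_contra hiY
  exact hfull i hi ((LR_posR M (Sph M) fun _ h => h).supp Y hY r h1 i hiY)

end Pool.Agent.H85.AA
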