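import Pool.Agent.H42.NU.Mats
import Pool.Agent.H4.FC.TitsAlt

/-!
# Project AA: the positive lift is well defined (Matsumoto), all Coxeter groups

This is `H42/NU/Mats` without the hypothesis that `W` is finite: if an element has two different right descents `s`, `s'`
then `m(s, s')` is finite (`ne_zero_of_desc`).
-/

set_option autoImplicit false
set_option linter.unusedSectionVars false

namespace Pool.Agent.H85.AA

open Pool.Agent.H73.HVN H42.NU CoxeterSystem

universe w

section

variable {S : Type} [Fintype S] [DecidableEq S] {W : Type} [Group W] {M : CoxeterMatrix S}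
  (cs : CoxeterSystem M W)

omit [Fintype S] [DecidableEq S] in
private theorem alt_of_desc {s s' : S} (hss : s ≠ s') : ∀ (n : ℕ) (l : W), cs.length l = n →
    l ∈ WP cs ({s, s'} : Set S) →
    (cs.IsRightDescent l s → l = cs.wordProd (alternatingWord s' s n)) ∧
      (cs.IsRightDescent l s' → l = cs.wordProd (alternatingWord s s' n)) := by
  intro n
  induction n with
  | zero =>
    intro l hl _
    constructor
    · intro h
      have := cs.isRightDescent_iff.1 h
      omega
    · intro h
      have := cs.isRightDescent_iff.1 h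
      omega
  | succ n ih =>
    intro l hl hmem
    have key : ∀ c c' : S, ((c = s ∧ c' = s') ∨ (c = s' ∧ c' = s)) → cs.IsRightDescent l c →
        l = cs.wordProd (alternatingWord c' c (n + 1)) := by
      intro c c' hc hd
      have h1 := cs.isRightDescent_iff.1 hd
      have h2 : cs.length (l * cs.simple c) = n := by omega
      have h3 : l * cs.simple c ∈ WP cs ({s, s'} : Set S) := by
        refine mul_mem hmem (Subgroup.subset_closure ⟨c, ?_, rfl⟩)
        rcases hc with ⟨rfl, -⟩ | ⟨rfl, -⟩
        · exact Or.inl rfl
        · exact Or.inr rfl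
      have h4 : l * cs.simple c = cs.wordProd (alternatingWord c c' n) := by
        rcases Nat.eq_zero_or_pos n with rfl | hn
        · rw [cs.length_eq_zero_iff.1 h2]
          rfl
        · have h5 : l * cs.simple c ≠ 1 := by
            intro h
            rw [h, cs.length_one] at h2
            omega
          obtain ⟨d, hd2⟩ := cs.exists_rightDescent_of_ne_one h5
          have h6 := right_descent_mem cs h3 hd2
          have h7 : d ≠ c := by
            rintro rfl
            exact (cs.isRightDescent_iff_not_isRightDescent_mul.1 hd) hd2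
          have h8 := ih _ h2 h3
          rcases hc with ⟨rfl, rfl⟩ | ⟨rfl, rfl⟩
          · rcases h6 with rfl | rfl
            · exact absurd rfl h7
            · exact h8.2 hd2
          · rcases h6 with rfl | rfl
            · exact h8.1 hd2
            · exact absurd rfl h7
      rw [alternatingWord_succ, List.concat_eq_append, cs.wordProd_append, ← h4,
        cs.wordProd_singleton, mul_assoc, cs.simple_mul_simple_self, mul_one]
    exact ⟨key s s' (Or.inl ⟨rfl, rfl⟩), key s' s (Or.inr ⟨rfl, rfl⟩)⟩

private theorem pow_ne_one {s s' : S} (hss : s ≠ s') (hM : M s s' = 0) (k : ℕ) (hk : 0 < k) :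
    (cs.simple s * cs.simple s') ^ k ≠ 1 := by
  intro h
  have h1 := congrArg cs.mulEquiv h
  rw [map_pow, map_mul, map_one] at h1
  have h2 : ∀ i, cs.mulEquiv (cs.simple i) = M.toCoxeterSystem.simple i := by
    intro i
    unfold CoxeterSystem.simple
    rw [MulEquiv.apply_symm_apply]
    rfl
  rw [h2, h2] at h1
  exact Pool.Agent.H4.FC.alt_infinite M s s' hss hM k hk h1

/-- an element has two different right descents only if the label is finite -/
theorem ne_zero_of_desc {x : W} {s s' : S} (hss : s ≠ s') (h1 : cs.IsRightDescent x s)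
    (h2 : cs.IsRightDescent x s') : M s s' ≠ 0 := by
  intro hM
  obtain ⟨u, l, hu, hl, rfl⟩ := exists_min cs ({s, s'} : Set S) x
  have hs : cs.simple s ∈ WP cs ({s, s'} : Set S) := Subgroup.subset_closure ⟨s, Or.inl rfl, rfl⟩
  have hs' : cs.simple s' ∈ WP cs ({s, s'} : Set S) := Subgroup.subset_closure ⟨s', Or.inr rfl, rfl⟩
  have e0 := length_mul_of_min cs hu hl
  have e1 := length_mul_of_min cs hu (mul_mem hl hs)
  have e2 := length_mul_of_min cs hu (mul_mem hl hs')
  have d1 : cs.IsRightDescent l s := by
    unfold CoxeterSystem.IsRightDescent at h1 ⊢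
    rw [mul_assoc] at h1
    omega
  have d2 : cs.IsRightDescent l s' := by
    unfold CoxeterSystem.IsRightDescent at h2 ⊢
    rw [mul_assoc] at h2
    omega
  obtain ⟨h3, h4⟩ := alt_of_desc cs hss _ l rfl hl
  have h5 := (h3 d1).symm.trans (h4 d2)
  have hn : 0 < cs.length l := by
    have := cs.isRightDescent_iff.1 d1
    omega
  generalize cs.length l = n at h5 hn
  rw [prod_alternatingWord_eq_mul_pow, prod_alternatingWord_eq_mul_pow] at h5
  have hinv : ∀ k : ℕ, (cs.simple s * cs.simple s') ^ k * (cs.simple s' * cs.simple s) ^ k = 1 := by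
    intro k
    have : cs.simple s' * cs.simple s = (cs.simple s * cs.simple s')⁻¹ := by
      rw [mul_inv_rev, cs.inv_simple, cs.inv_simple]
    rw [this, inv_pow, mul_inv_cancel]
  rcases Nat.even_or_odd' n with ⟨k, rfl | rfl⟩
  · rw [if_pos (by simp), if_pos (by simp), one_mul, one_mul,
      Nat.mul_div_cancel_left k (by norm_num)] at h5
    refine pow_ne_one cs hss hM (k + k) (by omega) ?_
    rw [pow_add]
    nth_rewrite 2 [← h5]
    exact hinv k
  · rw [if_neg (by simp), if_neg (by simp)] at h5
    have e : (2 * k + 1) / 2 = k := by omega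
    rw [e] at h5
    have h6 : (cs.simple s' * cs.simple s) ^ (k + 1) = (cs.simple s * cs.simple s') ^ k := by
      rw [pow_succ', mul_assoc, h5, ← mul_assoc, cs.simple_mul_simple_self, one_mul]
    refine pow_ne_one cs hss hM ((k + 1) + k) (by omega) ?_
    rw [pow_add, ← h6]
    exact hinv (k + 1)

variable {G : Type w} [Monoid G] {σ : S → G}

/-- the pairs of an element and a value of the lift -/
private inductive MatsLR (cs : CoxeterSystem M W) (σ : S → G) : W → G → Prop
  | one : MatsLR cs σ 1 1
  | step {x : W} {g : G} {s : S} : MatsLR cs σ x g → ¬ cs.IsRightDescent x s →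
      MatsLR cs σ (x * cs.simple s) (g * σ s)

private theorem MatsLR_exists (σ : S → G) : ∀ (n : ℕ) (x : W), cs.length x = n →
    ∃ g, MatsLR cs σ x g := by
  intro n
  induction n with
  | zero =>
    intro x hx
    have h1 : x = 1 := cs.length_eq_zero_iff.1 hx
    subst h1
    exact ⟨1, MatsLR.one⟩
  | succ n ih =>
    intro x hx
    have h1 : x ≠ 1 := by
      rintro rfl
      simp at hx
    obtain ⟨s, hs⟩ := cs.exists_rightDescent_of_ne_one h1
    have h2 := cs.isRightDescent_iff.1 hs
    obtain ⟨g, hg⟩ := ih (x * cs.simple s) (by omega)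
    have h3 := (cs.isRightDescent_iff_not_isRightDescent_mul).1 hs
    have h4 := MatsLR.step hg h3
    rw [mul_assoc, cs.simple_mul_simple_self, mul_one] at h4
    exact ⟨_, h4⟩

private theorem MatsLR_inv {σ : S → G} {x : W} {g : G} (h : MatsLR cs σ x g) :
    (x = 1 ∧ g = 1) ∨ ∃ (y : W) (g' : G) (s : S), MatsLR cs σ y g' ∧ ¬ cs.IsRightDescent y s ∧
      x = y * cs.simple s ∧ g = g' * σ s := by
  cases h with
  | one => exact Or.inl ⟨rfl, rfl⟩
  | step h1 h2 => exact Or.inr ⟨_, _, _, h1, h2, rfl, rfl⟩

private theorem MatsLR_arm {σ : S → G} {a b : S} (hab : a ≠ b) (hM : M a b ≠ 0) {v : W} {g₀ : G}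
    (hv : MatsLR cs σ v g₀) (h1 : ¬ cs.IsRightDescent v a) (h2 : ¬ cs.IsRightDescent v b) :
    ∀ k ≤ M a b, MatsLR cs σ (v * pr cs.simple a b k) (g₀ * pr σ a b k) := by
  intro k
  induction k with
  | zero => intro _; simpa [pr] using hv
  | succ k ih =>
    intro hk
    have h3 := MatsLR.step (ih (by omega)) (dih_asc cs hab hM h1 h2 (n := k) (by omega))
    rw [mul_assoc, mul_assoc] at h3
    exact h3

private theorem MatsLR_end {σ : S → G} {a b c : S} (hab : a ≠ b) (hM : M a b ≠ 0) {v x : W}
    {g₀ g₁ : G} (hv : MatsLR cs σ v g₀) (h1 : ¬ cs.IsRightDescent v a)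
    (h2 : ¬ cs.IsRightDescent v b) {k : ℕ} (hk : k < M a b) (hc : lt a b k = c)
    (hx : v * pr cs.simple a b (k + 1) = x * cs.simple c)
    (IH : ∀ g g', MatsLR cs σ x g → MatsLR cs σ x g' → g = g') (hg : MatsLR cs σ x g₁) :
    g₁ * σ c = g₀ * pr σ a b (k + 1) := by
  have e1 : v * pr cs.simple a b (k + 1) = (v * pr cs.simple a b k) * cs.simple c := by
    change v * (pr cs.simple a b k * cs.simple (lt a b k)) = _
    rw [hc, mul_assoc]
  have e2 : v * pr cs.simple a b k = x := mul_right_cancel (e1.symm.trans hx)
  have h3 := MatsLR_arm cs hab hM hv h1 h2 k hk.le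
  rw [e2] at h3
  rw [IH _ _ hg h3]
  change _ = g₀ * (pr σ a b k * σ (lt a b k))
  rw [hc, mul_assoc]

private theorem MatsLR_len {x : W} {s : S} (h : ¬ cs.IsRightDescent x s) :
    cs.length (x * cs.simple s) = cs.length x + 1 := cs.not_isRightDescent_iff.1 h

private theorem MatsLR_desc {x : W} {s : S} (h : ¬ cs.IsRightDescent x s) :
    cs.IsRightDescent (x * cs.simple s) s := by
  by_contra hc
  have h1 := MatsLR_len cs h
  have h2 := MatsLR_len cs hc
  rw [mul_assoc, cs.simple_mul_simple_self, mul_one] at h2
  omega

private theorem MatsLR_unique {σ : S → G} (h : Artin M σ) : ∀ (n : ℕ) (x : W),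
    cs.length x ≤ n → ∀ g g', MatsLR cs σ x g → MatsLR cs σ x g' → g = g' := by
  intro n
  induction n with
  | zero =>
    intro x hx g g' h1 h2
    rcases MatsLR_inv cs h1 with ⟨-, e1⟩ | ⟨y, g1, s, -, hy, rfl, -⟩
    · rcases MatsLR_inv cs h2 with ⟨-, e2⟩ | ⟨y, g1, s, -, hy, rfl, -⟩
      · rw [e1, e2]
      · have := MatsLR_len cs hy
        omega
    · have := MatsLR_len cs hy
      omega
  | succ n ih =>
    intro x hx g g' h1 h2
    rcases MatsLR_inv cs h1 with ⟨e0, e1⟩ | ⟨y, g1, s, hg1, hy, hxy, rfl⟩
    · rcases MatsLR_inv cs h2 with ⟨-, e2⟩ | ⟨y, g1, s, -, hy, hxy, -⟩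
      · rw [e1, e2]
      · have := MatsLR_len cs hy
        rw [← hxy, e0, cs.length_one] at this
        omega
    · rcases MatsLR_inv cs h2 with ⟨e0, -⟩ | ⟨y', g1', s', hg1', hy', hxy', rfl⟩
      · have := MatsLR_len cs hy
        rw [← hxy, e0, cs.length_one] at this
        omega
      · have l1 := MatsLR_len cs hy
        have l2 := MatsLR_len cs hy'
        rw [← hxy] at l1
        rw [← hxy'] at l2
        by_cases hss : s = s'
        · subst hss
          have e : y = y' := mul_right_cancel (hxy.symm.trans hxy')
          subst e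
          rw [ih y (by omega) _ _ hg1 hg1']
        · have d1 : cs.IsRightDescent x s := by rw [hxy]; exact MatsLR_desc cs hy
          have d2 : cs.IsRightDescent x s' := by rw [hxy']; exact MatsLR_desc cs hy'
          have hM := ne_zero_of_desc cs hss d1 d2
          have hM' : M s' s ≠ 0 := by
            rw [M.symmetric]
            exact hM
          have hsym : M s' s = M s s' := M.symmetric s' s
          have hss' : s' ≠ s := fun e => hss e.symm
          obtain ⟨v, m, hv1, hv2, hm, hxv⟩ := dih_cases cs hss hM x
          have hlt : ∀ (a b : S) (k : ℕ), lt a b k = a ∨ lt a b k = b := by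
            intro a b k
            unfold lt
            split
            · exact Or.inl rfl
            · exact Or.inr rfl
          have hmm : m = M s s' := by
            by_contra hne
            have hlt' : m < M s s' := lt_of_le_of_ne hm hne
            rcases hxv with e | e
            · have h3 := dih_asc cs hss hM hv1 hv2 hlt'
              rw [← e] at h3
              rcases hlt s s' m with h4 | h4
              · rw [h4] at h3; exact h3 d1
              · rw [h4] at h3; exact h3 d2
            · have h3 := dih_asc cs hss' hM' hv2 hv1 (n := m) (by rw [hsym]; exact hlt')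
              rw [← e] at h3
              rcases hlt s' s m with h4 | h4
              · rw [h4] at h3; exact h3 d2
              · rw [h4] at h3; exact h3 d1
          have htop := dih_top cs s s'
          subst hmm
          have x1 : x = v * pr cs.simple s s' (M s s') := by
            rcases hxv with e | e
            · exact e
            · rw [htop]; exact e
          have x2 : x = v * pr cs.simple s' s (M s s') := by
            rw [← htop]; exact x1
          obtain ⟨g₀, hg₀⟩ := MatsLR_exists cs σ _ v rfl
          obtain ⟨k, hk⟩ : ∃ k, M s s' = k + 1 := ⟨M s s' - 1, by omega⟩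
          have hA := h s s' hss
          rw [hk] at x1 x2 hA
          have IH1 := ih y (by omega)
          have IH2 := ih y' (by omega)
          rcases Nat.mod_two_eq_zero_or_one k with hp | hp
          · have c1 : lt s s' k = s := by unfold lt; rw [if_pos hp]
            have c2 : lt s' s k = s' := by unfold lt; rw [if_pos hp]
            have e1 := MatsLR_end cs hss hM hg₀ hv1 hv2 (k := k) (by omega) c1
              (x1.symm.trans hxy) IH1 hg1
            have e2 := MatsLR_end cs hss' hM' hg₀ hv2 hv1 (k := k) (by omega) c2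
              (x2.symm.trans hxy') IH2 hg1'
            rw [e1, e2, hA]
          · have c1 : lt s s' k = s' := by unfold lt; rw [if_neg (by omega)]
            have c2 : lt s' s k = s := by unfold lt; rw [if_neg (by omega)]
            have e1 := MatsLR_end cs hss hM hg₀ hv1 hv2 (k := k) (by omega) c1
              (x1.symm.trans hxy') IH2 hg1'
            have e2 := MatsLR_end cs hss' hM' hg₀ hv2 hv1 (k := k) (by omega) c2
              (x2.symm.trans hxy) IH1 hg1
            rw [e1, e2, hA]

/-- **Matsumoto's theorem.** -/
theorem exists_lift (σ : S → G) (h : Artin M σ) : ∃ lift : W → G, IsLift cs σ lift := by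
  choose f hf using fun x : W => MatsLR_exists cs σ _ x rfl
  refine ⟨f, ?_, ?_⟩
  · exact MatsLR_unique cs h _ 1 le_rfl _ _ (hf 1) MatsLR.one
  · intro x s hs
    exact MatsLR_unique cs h _ _ le_rfl _ _ (hf _) (MatsLR.step (hf x) hs)

end

end Pool.Agent.H85.AA
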